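import Mathlib

/-!
# MP_6957f6_co, Q2: palindromic primitive morphic words that do not come from class P morphisms

The word `u = μ(x)`, where `x` is the fixed point of the primitive morphism
`0 ↦ 00200, 1 ↦ 11211, 2 ↦ 20212` that starts with `0` and `μ : 0 ↦ 01, 1 ↦ 10, 2 ↦ 22`, is
palindromic, but there are no morphisms `φ` (primitive) and `ψ`, both conjugate to morphisms in
class P, and no fixed point `v` of `φ` such that `ψ(v)` has the language of `u`.
-/

set_option autoImplicit false

namespace Pool.Agent.Results.MP_6957f6_co.WeakClassPFails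

/-- The image of a finite word under the morphism with letter images `f`. -/
def ap {α β : Type} (f : α → List β) (w : List α) : List β := w.flatMap f

/-- The factor of length `n` at position `i` of an infinite word. -/
def seg {α : Type} (u : ℕ → α) (i n : ℕ) : List α := (List.range n).map (fun j => u (i + j))

/-- The language of an infinite word. -/
def language {α : Type} (u : ℕ → α) : Set (List α) := {w | ∃ i n : ℕ, w = seg u i n}

/-- `f(v) = y` for infinite words `v`, `y`: the images of the prefixes of `v` are prefixes of `y`,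
and their lengths are unbounded. -/
def MapsTo {α β : Type} (f : α → List β) (v : ℕ → α) (y : ℕ → β) : Prop :=
  (∀ n : ℕ, ap f (seg v 0 n) = seg y 0 (ap f (seg v 0 n)).length) ∧
    ∀ m : ℕ, ∃ n : ℕ, m ≤ (ap f (seg v 0 n)).length

/-- A morphism is primitive: for some `k`, every letter occurs in the `k`-th iterated image of every
letter. -/
def IsPrimitive {α : Type} (f : α → List α) : Prop := ∃ k : ℕ, ∀ a b : α, b ∈ (ap f)^[k] [a]

/-- Class P: for some palindrome `p`, for every letter `a`, `p` is an initial factor of `f(a)` and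
`f(a) p` is a palindrome. -/
def ClassP {α β : Type} (f : α → List β) : Prop :=
  ∃ p : List β, p.reverse = p ∧ ∀ a : α, p <+: f a ∧ (f a ++ p).reverse = f a ++ p

/-- Two morphisms are conjugate. -/
def Conj {α β : Type} (f g : α → List β) : Prop :=
  ∃ w : List β, (∀ a, f a ++ w = w ++ g a) ∨ (∀ a, g a ++ w = w ++ f a)

/-- `f` is conjugate to a morphism in class P. -/
def ClassP' {α β : Type} (f : α → List β) : Prop := ∃ g : α → List β, ClassP g ∧ Conj f g

/-- An infinite word is palindromic: infinitely many distinct palindromes are factors of it. -/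
def IsPalindromic {α : Type} (u : ℕ → α) : Prop := {w | w ∈ language u ∧ w.reverse = w}.Infinite

/-- A primitive morphic word: the image under a morphism of a fixed point of a primitive
morphism over a finite alphabet. -/
def IsPrimitiveMorphic {α : Type} (u : ℕ → α) : Prop :=
  ∃ (B : Type) (_ : Finite B) (z : B → List B) (x : ℕ → B) (m : B → List α),
    IsPrimitive z ∧ MapsTo z x x ∧ MapsTo m x u

/-! ### Basic facts on words -/

section basic

variable {α β : Type}

@[simp] lemma seg_length (u : ℕ → α) (i n : ℕ) : (seg u i n).length = n := by simp [seg]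

@[simp] lemma seg_getElem (u : ℕ → α) (i n j : ℕ) (h : j < (seg u i n).length) :
    (seg u i n)[j] = u (i + j) := by simp [seg]

lemma seg_add (u : ℕ → α) (i m n : ℕ) : seg u i (m + n) = seg u i m ++ seg u (i + m) n := by
  apply List.ext_getElem
  · simp
  · intro j h1 h2
    rw [List.getElem_append]
    split_ifs with h
    · simp
    · rw [seg_length] at h
      simp only [seg_getElem, seg_length]
      congr 1
      omega

lemma seg_succ (u : ℕ → α) (i n : ℕ) : seg u i (n + 1) = seg u i n ++ [u (i + n)] := by
  rw [seg_add]; simp [seg]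

@[simp] lemma seg_zero (u : ℕ → α) (i : ℕ) : seg u i 0 = [] := by simp [seg]

lemma ap_append (f : α → List β) (w w' : List α) : ap f (w ++ w') = ap f w ++ ap f w' := by
  simp [ap]

@[simp] lemma ap_nil (f : α → List β) : ap f [] = [] := rfl

@[simp] lemma ap_singleton (f : α → List β) (a : α) : ap f [a] = f a := by simp [ap]

/-- Position in `f(v)` where the image of the letter number `n` of `v` starts. -/
def pos (f : α → List β) (v : ℕ → α) (n : ℕ) : ℕ := (ap f (seg v 0 n)).length

lemma pos_zero (f : α → List β) (v : ℕ → α) : pos f v 0 = 0 := by simp [pos]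

lemma pos_add (f : α → List β) (v : ℕ → α) (m n : ℕ) :
    pos f v (m + n) = pos f v m + (ap f (seg v m n)).length := by
  unfold pos
  rw [seg_add, ap_append, List.length_append, zero_add]

lemma pos_succ (f : α → List β) (v : ℕ → α) (n : ℕ) :
    pos f v (n + 1) = pos f v n + (f (v n)).length := by
  rw [pos_add]; simp [seg]

lemma pos_mono (f : α → List β) (v : ℕ → α) : Monotone (pos f v) :=
  monotone_nat_of_le_succ fun n => by rw [pos_succ]; omega

lemma seg_image {f : α → List β} {v : ℕ → α} {y : ℕ → β} (h : MapsTo f v y) (m n : ℕ) :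
    ap f (seg v m n) = seg y (pos f v m) (ap f (seg v m n)).length := by
  have h1 := h.1 (m + n)
  rw [seg_add, ap_append, List.length_append, seg_add, zero_add, zero_add] at h1
  exact (List.append_inj' h1 (by simp)).2

lemma ap_length_le {f : α → List β} {C : ℕ} (hC : ∀ a, (f a).length ≤ C) (w : List α) :
    (ap f w).length ≤ C * w.length := by
  induction w with
  | nil => simp
  | cons a w ih =>
    have : ap f (a :: w) = f a ++ ap f w := by simp [ap]
    rw [this, List.length_append, List.length_cons, mul_add, mul_one]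
    have := hC a
    omega

end basic

/-! ### Two types of morphisms -/

section types

variable {α β : Type}

/-- `f(a) t` is a palindrome for all letters `a`, with `t` a palindrome. -/
def RT (f : α → List β) : Prop :=
  ∃ t : List β, t.reverse = t ∧ ∀ a, (f a ++ t).reverse = f a ++ t

/-- `t f(a)` is a palindrome for all letters `a`, with `t` a palindrome. -/
def LT (f : α → List β) : Prop :=
  ∃ t : List β, t.reverse = t ∧ ∀ a, (t ++ f a).reverse = t ++ f a

/-- conjugation by one letter -/
lemma shift_one {g : α → List β} (hg : RT g ∨ LT g) (c : β) (w : List β) (f : α → List β)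
    (h : ∀ a, g a ++ (c :: w) = (c :: w) ++ f a) :
    ∃ g2 : α → List β, (RT g2 ∨ LT g2) ∧ ∀ a, g2 a ++ w = w ++ f a := by
  have key : ∀ a, (g a = [] ∧ f a = []) ∨ ∃ h1, g a = c :: h1 ∧ (h1 ++ [c]) ++ w = w ++ f a := by
    intro a
    rcases hga : g a with _ | ⟨d, h1⟩
    · left
      refine ⟨rfl, ?_⟩
      have := h a
      rw [hga, List.nil_append] at this
      have h2 := congrArg List.length this
      simp at h2
      exact h2
    · right
      have := h a
      rw [hga] at this
      simp only [List.cons_append, List.cons.injEq] at this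
      refine ⟨h1, by rw [this.1], ?_⟩
      rw [List.append_assoc]
      exact this.2
  classical
  let g2 : α → List β := fun a => if g a = [] then [] else (g a).tail ++ [c]
  have hg2 : ∀ a, (g a = [] ∧ g2 a = [] ∧ f a = []) ∨
      ∃ h1, g a = c :: h1 ∧ g2 a = h1 ++ [c] ∧ (h1 ++ [c]) ++ w = w ++ f a := by
    intro a
    rcases key a with ⟨h1, h2⟩ | ⟨h1, h2, h3⟩
    · left; exact ⟨h1, by simp [g2, h1], h2⟩
    · right; exact ⟨h1, h2, by simp [g2, h2], h3⟩
  refine ⟨g2, ?_, ?_⟩
  · rcases hg with ⟨t, ht, hR⟩ | ⟨t, ht, hL⟩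
    · by_cases hall : ∀ a, g a = []
      · left
        refine ⟨[], rfl, fun a => ?_⟩
        rcases hg2 a with ⟨-, h2, -⟩ | ⟨h1, h2, -⟩
        · rw [h2]; rfl
        · rw [hall a] at h2; exact absurd h2 (by simp)
      · push Not at hall
        obtain ⟨a0, ha0⟩ := hall
        rcases List.eq_nil_or_concat t with h0 | ⟨t1, d, h0⟩
        · right
          subst h0
          refine ⟨[c, c], rfl, fun a => ?_⟩
          rcases hg2 a with ⟨-, h2, -⟩ | ⟨h1, h2, h3, -⟩
          · rw [h2]; rfl
          · have := hR a
            rw [h2] at this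
            simp only [List.append_nil, List.reverse_cons] at this
            have e1 : ([c, c] ++ (h1 ++ [c])).reverse = c :: (h1.reverse ++ [c]) ++ [c] := by simp
            rw [h3, e1, this]
            simp
        · -- `t` is not empty, so it ends with `c`
          have hd : d = c := by
            rcases hg2 a0 with ⟨h1, -, -⟩ | ⟨h1, h2, -, -⟩
            · exact absurd h1 ha0
            · have := hR a0
              rw [h2, h0] at this
              simp only [List.concat_eq_append, List.reverse_append, List.reverse_cons,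
                List.reverse_nil, List.nil_append, List.cons_append, List.cons.injEq] at this
              exact this.1
          subst hd
          rcases t1 with _ | ⟨e, t2⟩
          · right
            have h0' : t = [d] := by simpa using h0
            subst h0'
            refine ⟨[d], rfl, fun a => ?_⟩
            rcases hg2 a with ⟨-, h2, -⟩ | ⟨h1, h2, h3, -⟩
            · rw [h2]; rfl
            · have := hR a
              rw [h2] at this
              rw [h3]
              simpa using this
          · left
            have he : e = d ∧ (t2.reverse = t2) := by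
              rw [h0] at ht
              simp only [List.concat_eq_append, List.cons_append, List.reverse_cons,
                List.reverse_append, List.reverse_nil, List.nil_append, List.cons.injEq] at ht
              obtain ⟨h1, h2⟩ := ht
              have h3 := List.append_inj' h2 (by simp)
              exact ⟨h1.symm, h3.1⟩
            obtain ⟨rfl, ht2⟩ := he
            refine ⟨t2, ht2, fun a => ?_⟩
            rcases hg2 a with ⟨-, h2, -⟩ | ⟨h1, h2, h3, -⟩
            · rw [h2]; simpa using ht2
            · have := hR a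
              rw [h2, h0] at this
              rw [h3]
              simp only [List.concat_eq_append, List.cons_append, List.reverse_cons,
                List.reverse_append, List.reverse_nil, List.nil_append, List.cons.injEq,
                true_and, List.append_assoc] at this ⊢
              have h4 : (t2.reverse ++ (e :: h1.reverse)) ++ [e] = (h1 ++ (e :: t2)) ++ [e] := by
                simpa using this
              exact (List.append_inj' h4 rfl).1
    · right
      refine ⟨[c] ++ t ++ [c], by simp [ht], fun a => ?_⟩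
      rcases hg2 a with ⟨-, h2, -⟩ | ⟨h1, h2, h3, -⟩
      · rw [h2]; simp [ht]
      · have := hL a
        rw [h2] at this
        rw [h3]
        have e1 : [c] ++ t ++ [c] ++ (h1 ++ [c]) = [c] ++ (t ++ (c :: h1)) ++ [c] := by simp
        rw [e1, List.reverse_append, List.reverse_append, this]
        simp
  · intro a
    rcases hg2 a with ⟨-, h2, h3⟩ | ⟨h1, -, h3, h4⟩
    · rw [h2, h3]; simp
    · rw [h3, h4]

lemma shift_all (w : List β) : ∀ {g : α → List β}, (RT g ∨ LT g) → ∀ (f : α → List β),
    (∀ a, g a ++ w = w ++ f a) → (RT f ∨ LT f) := by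
  induction w with
  | nil =>
    intro g hg f h
    have : g = f := by
      funext a
      simpa using h a
    rw [← this]; exact hg
  | cons c w ih =>
    intro g hg f h
    obtain ⟨g2, h2, h3⟩ := shift_one hg c w f h
    exact ih h2 f h3

lemma RT_or_LT {f : α → List β} (h : ClassP' f) : RT f ∨ LT f := by
  obtain ⟨g, ⟨p, hp, hg⟩, w, hw⟩ := h
  rcases hw with hw | hw
  · left
    refine ⟨w ++ p ++ w.reverse, by simp [hp], fun a => ?_⟩
    have h1 := (hg a).2
    have e1 : f a ++ (w ++ p ++ w.reverse) = w ++ (g a ++ p) ++ w.reverse := by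
      rw [← List.append_assoc, ← List.append_assoc, hw a]
      simp
    rw [e1, List.reverse_append, List.reverse_append, h1]
    simp
  · exact shift_all w (Or.inl ⟨p, hp, fun a => (hg a).2⟩) f hw

lemma RT_rev {f : α → List β} {t : List β} (ht : t.reverse = t)
    (h : ∀ a, (f a ++ t).reverse = f a ++ t) (w : List α) :
    (ap f w ++ t).reverse = ap f w.reverse ++ t := by
  induction w with
  | nil => simpa using ht
  | cons b w ih =>
    have e1 : ap f (b :: w) = f b ++ ap f w := by simp [ap]
    rw [e1, List.append_assoc, List.reverse_append, ih, List.reverse_cons, ap_append,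
      ap_singleton, List.append_assoc, List.append_assoc]
    congr 1
    have := h b
    rw [List.reverse_append, ht] at this
    exact this

lemma LT_rev {f : α → List β} {t : List β} (ht : t.reverse = t)
    (h : ∀ a, (t ++ f a).reverse = t ++ f a) (w : List α) :
    (t ++ ap f w).reverse = t ++ ap f w.reverse := by
  induction w using List.reverseRecOn with
  | nil => simpa using ht
  | append_singleton w b ih =>
    rw [ap_append, ap_singleton, ← List.append_assoc, List.reverse_append, ih,
      List.reverse_append]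
    have e1 : ap f ([b].reverse ++ w.reverse) = f b ++ ap f w.reverse := by simp [ap]
    rw [e1, ← List.append_assoc, ← List.append_assoc]
    congr 1
    have := h b
    rw [List.reverse_append, ht] at this
    exact this

end types

/-! ### Covering by palindromes -/

section cover

variable {α β γ : Type}

/-- Every block `[Q j, Q (j+1))` with `j` large is covered by a palindromic factor of `v` which ends
not far from the block. -/
def Good (v : ℕ → α) (Q : ℕ → ℕ) : Prop :=
  ∃ D : ℕ, ∀ j, D ≤ j → ∃ S n, S ≤ Q j ∧ Q (j + 1) ≤ S + n ∧ Q j ≤ S + D ∧ S + n ≤ Q j + D ∧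
    (seg v S n).reverse = seg v S n

lemma good_id (v : ℕ → α) : Good v id := by
  refine ⟨1, fun j _ => ⟨j, 1, le_refl _, le_refl _, by simp, by simp, by simp [seg]⟩⟩

lemma pos_tendsto {f : α → List β} {v : ℕ → α} {y : ℕ → β} (h : MapsTo f v y) (m : ℕ) :
    ∃ n0, ∀ n, n0 ≤ n → m ≤ pos f v n := by
  obtain ⟨n0, h0⟩ := h.2 m
  exact ⟨n0, fun n hn => h0.trans (pos_mono f v hn)⟩

lemma good_step [Finite α] {f : α → List β} (hf : RT f ∨ LT f) {v : ℕ → α} {y : ℕ → β}
    (h : MapsTo f v y) {Q : ℕ → ℕ} (hQ : ∀ j, j ≤ Q j + 1) (hv : Good v Q) :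
    Good y (fun j => pos f v (Q j)) := by
  obtain ⟨D, hD⟩ := hv
  obtain ⟨C, hC⟩ : ∃ C, ∀ a, (f a).length ≤ C := by
    obtain ⟨C, hC⟩ := (Set.finite_range (fun a => (f a).length)).bddAbove
    exact ⟨C, fun a => hC ⟨a, rfl⟩⟩
  have hlen : ∀ i n, pos f v (i + n) ≤ pos f v i + C * n := by
    intro i n
    rw [pos_add]
    have := ap_length_le hC (seg v i n)
    rw [seg_length] at this
    omega
  rcases hf with ⟨t, ht, hR⟩ | ⟨t, ht, hL⟩
  · refine ⟨D + C * D + t.length, fun j hj => ?_⟩
    obtain ⟨S, n, h1, h2, h3, h4, h5⟩ := hD j (by omega)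
    refine ⟨pos f v S, pos f v (S + n) - pos f v S + t.length, pos_mono f v h1, ?_, ?_, ?_, ?_⟩
    · have a1 := pos_mono f v h2
      have a2 := pos_mono f v (Nat.le_add_right S n)
      simp only at *
      omega
    · have a1 := hlen S (Q j - S)
      rw [Nat.add_sub_cancel' h1] at a1
      have a2 : C * (Q j - S) ≤ C * D := Nat.mul_le_mul_left C (by omega)
      simp only
      omega
    · have a1 := hlen (Q j) D
      have a2 := pos_mono f v h4
      have a3 := pos_mono f v (Nat.le_add_right S n)
      simp only
      omega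
    · -- the palindrome `f(w) t`
      have e1 : pos f v (S + n) - pos f v S = (ap f (seg v S n)).length := by
        rw [pos_add]; omega
      rw [e1, seg_add, ← seg_image h, ← pos_add]
      -- the next letters are `t`
      obtain ⟨n0, hn0⟩ := pos_tendsto h (pos f v (S + n) + t.length)
      obtain ⟨m, hm⟩ : ∃ m, t.length ≤ (ap f (seg v (S + n) m)).length := by
        refine ⟨n0, ?_⟩
        have := hn0 (S + n + n0) (by omega)
        rw [pos_add f v (S + n) n0] at this
        omega
      have e2 := RT_rev ht hR (seg v (S + n) m).reverse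
      rw [List.reverse_reverse, List.reverse_append, ht] at e2
      have e3 : seg y (pos f v (S + n)) t.length = t := by
        have e4 := seg_image h (S + n) m
        obtain ⟨l, hl⟩ := Nat.exists_eq_add_of_le hm
        rw [hl, seg_add] at e4
        rw [e4, List.append_assoc] at e2
        exact (List.append_inj e2.symm (by simp)).1
      rw [e3]
      have e5 := RT_rev ht hR (seg v S n)
      rw [e5, h5]
  · obtain ⟨n0, hn0⟩ := pos_tendsto h t.length
    refine ⟨n0 + 1 + D + C * D + t.length, fun j hj => ?_⟩
    obtain ⟨S, n, h1, h2, h3, h4, h5⟩ := hD j (by omega)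
    have hS : t.length ≤ pos f v S := hn0 S (by have := hQ j; omega)
    refine ⟨pos f v S - t.length, t.length + (pos f v (S + n) - pos f v S), ?_, ?_, ?_, ?_, ?_⟩
    · have a1 := pos_mono f v h1
      simp only
      omega
    · have a1 := pos_mono f v h2
      have a2 := pos_mono f v (Nat.le_add_right S n)
      simp only at *
      omega
    · have a1 := hlen S (Q j - S)
      rw [Nat.add_sub_cancel' h1] at a1
      have a2 : C * (Q j - S) ≤ C * D := Nat.mul_le_mul_left C (by omega)
      simp only
      omega
    · have a1 := hlen (Q j) D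
      have a2 := pos_mono f v h4
      have a3 := pos_mono f v (Nat.le_add_right S n)
      simp only
      omega
    · have e1 : pos f v (S + n) - pos f v S = (ap f (seg v S n)).length := by
        rw [pos_add]; omega
      rw [e1, seg_add, Nat.sub_add_cancel hS, ← seg_image h]
      have e2 := LT_rev ht hL (seg v 0 S).reverse
      rw [List.reverse_reverse, List.reverse_append, ht] at e2
      have e3 : seg y (pos f v S - t.length) t.length = t := by
        have e4 := seg_image h 0 S
        have e5 : (ap f (seg v 0 S)).length = (pos f v S - t.length) + t.length := by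
          rw [Nat.sub_add_cancel hS]; rfl
        rw [e5, seg_add, pos_zero, zero_add] at e4
        rw [e4, ← List.append_assoc] at e2
        exact (List.append_inj' e2.symm (by simp)).2
      rw [e3]
      have e6 := LT_rev ht hL (seg v S n)
      rw [e6, h5]

end cover

/-! ### The word -/

section word

/-- The letters of the images `0 ↦ 00200`, `1 ↦ 11211`, `2 ↦ 20212`. -/
def Z (c : Fin 3) (r : ℕ) : Fin 3 :=
  match c, r with
  | 0, 2 => 2
  | 0, _ => 0
  | 1, 2 => 2
  | 1, _ => 1
  | 2, 0 => 2
  | 2, 1 => 0
  | 2, 2 => 2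
  | 2, 3 => 1
  | 2, _ => 2

/-- The primitive morphism `0 ↦ 00200`, `1 ↦ 11211`, `2 ↦ 20212`. -/
def zeta (c : Fin 3) : List (Fin 3) := [Z c 0, Z c 1, Z c 2, Z c 3, Z c 4]

/-- Exchange of the letters `0` and `1`. -/
def E (c : Fin 3) : Fin 3 :=
  match c with
  | 0 => 1
  | 1 => 0
  | 2 => 2

/-- The morphism `0 ↦ 01`, `1 ↦ 10`, `2 ↦ 22`. -/
def mu (c : Fin 3) : List (Fin 3) := [c, E c]

/-- The fixed point of `zeta` that starts with `0`. -/
def x (n : ℕ) : Fin 3 := if n = 0 then 0 else Z (x (n / 5)) (n % 5)
termination_by n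
decreasing_by omega

/-- The word `mu(x)`. -/
def u (n : ℕ) : Fin 3 := if n % 2 = 0 then x (n / 2) else E (x (n / 2))

lemma E_E (c : Fin 3) : E (E c) = c := by revert c; decide

lemma x_zero : x 0 = 0 := by rw [x]; simp

lemma x_eq (m r : ℕ) (hr : r < 5) : x (5 * m + r) = Z (x m) r := by
  by_cases h : 5 * m + r = 0
  · obtain ⟨rfl, rfl⟩ : m = 0 ∧ r = 0 := by omega
    rw [x_zero]; rfl
  · rw [x]
    rw [if_neg h, show (5 * m + r) / 5 = m by omega, show (5 * m + r) % 5 = r by omega]

lemma x_first (m : ℕ) : x (5 * m) = x m := by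
  have := x_eq m 0 (by omega)
  rw [add_zero] at this
  rw [this]
  generalize x m = c
  revert c; decide

lemma x_last (m : ℕ) : x (5 * m + 4) = x m := by
  rw [x_eq m 4 (by omega)]
  generalize x m = c
  revert c; decide

lemma u_even (n : ℕ) : u (2 * n) = x n := by
  unfold u
  rw [if_pos (by omega), show 2 * n / 2 = n by omega]

lemma u_odd (n : ℕ) : u (2 * n + 1) = E (x n) := by
  unfold u
  rw [if_neg (by omega), show (2 * n + 1) / 2 = n by omega]

/-- The pairs of consecutive letters of `x`. -/
def L2 (a b : Fin 3) : Bool :=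
  (a == 0 && b == 0) || (a == 0 && b == 2) || (a == 2 && b == 0) || (a == 2 && b == 1) ||
  (a == 1 && b == 2) || (a == 1 && b == 1)

lemma x_pair (n : ℕ) : L2 (x n) (x (n + 1)) = true := by
  induction n using Nat.strong_induction_on with
  | _ n ih =>
    obtain ⟨m, r, hr, rfl⟩ : ∃ m r, r < 5 ∧ n = 5 * m + r :=
      ⟨n / 5, n % 5, Nat.mod_lt _ (by omega), by omega⟩
    rcases Nat.lt_or_ge r 4 with h4 | h4
    · rw [x_eq m r hr, add_assoc, x_eq m (r + 1) (by omega)]
      generalize x m = c
      interval_cases r <;> revert c <;> decide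
    · obtain rfl : r = 4 := by omega
      rw [x_last, show 5 * m + 4 + 1 = 5 * (m + 1) by ring, x_first]
      exact ih m (by omega)

/-- Windows of three consecutive blocks. -/
lemma window (p : ℕ) (hp : 2 ≤ p)
    (h1 : x (p - 1) = E (x (p + 1))) (h2 : x (p - 2) = E (x (p + 2))) (h0 : x p = 2) :
    ∃ q, p = 5 * q + 2 ∧ x q = 2 := by
  obtain ⟨m, r, hr, rfl⟩ : ∃ m r, r < 5 ∧ p = 5 * m + r :=
    ⟨p / 5, p % 5, Nat.mod_lt _ (by omega), by omega⟩
  have hpair := x_pair m
  interval_cases r
  · -- r = 0
    exfalso
    obtain ⟨k, rfl⟩ : ∃ k, m = k + 1 := ⟨m - 1, by omega⟩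
    have hpair' := x_pair k
    rw [show 5 * (k + 1) + 0 - 1 = 5 * k + 4 by omega, show 5 * (k + 1) + 0 + 1 = 5 * (k + 1) + 1 by omega,
      x_last, x_eq _ 1 (by omega)] at h1
    rw [show 5 * (k + 1) + 0 - 2 = 5 * k + 3 by omega, show 5 * (k + 1) + 0 + 2 = 5 * (k + 1) + 2 by omega,
      x_eq _ 3 (by omega), x_eq _ 2 (by omega)] at h2
    rw [add_zero, x_first] at h0
    revert h1 h2 h0 hpair hpair'
    generalize x (k + 1 + 1) = c
    generalize x (k + 1) = b
    generalize x k = a
    revert a b c
    decide
  · exfalso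
    obtain ⟨k, rfl⟩ : ∃ k, m = k + 1 := ⟨m - 1, by omega⟩
    have hpair' := x_pair k
    rw [show 5 * (k + 1) + 1 - 1 = 5 * (k + 1) + 0 by omega, show 5 * (k + 1) + 1 + 1 = 5 * (k + 1) + 2 by omega,
      x_eq _ 0 (by omega), x_eq _ 2 (by omega)] at h1
    rw [show 5 * (k + 1) + 1 - 2 = 5 * k + 4 by omega, show 5 * (k + 1) + 1 + 2 = 5 * (k + 1) + 3 by omega,
      x_eq _ 4 (by omega), x_eq _ 3 (by omega)] at h2
    rw [x_eq _ 1 (by omega)] at h0
    revert h1 h2 h0 hpair hpair'
    generalize x (k + 1 + 1) = c
    generalize x (k + 1) = b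
    generalize x k = a
    revert a b c
    decide
  · refine ⟨m, rfl, ?_⟩
    rw [show 5 * m + 2 - 1 = 5 * m + 1 by omega, show 5 * m + 2 + 1 = 5 * m + 3 by omega,
      x_eq _ 1 (by omega), x_eq _ 3 (by omega)] at h1
    rw [show 5 * m + 2 - 2 = 5 * m + 0 by omega, show 5 * m + 2 + 2 = 5 * m + 4 by omega,
      x_eq _ 0 (by omega), x_eq _ 4 (by omega)] at h2
    rw [x_eq _ 2 (by omega)] at h0
    revert h1 h2 h0
    generalize x m = b
    revert b
    decide
  · exfalso
    rw [show 5 * m + 3 - 1 = 5 * m + 2 by omega, show 5 * m + 3 + 1 = 5 * m + 4 by omega,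
      x_eq _ 2 (by omega), x_eq _ 4 (by omega)] at h1
    rw [show 5 * m + 3 - 2 = 5 * m + 1 by omega, show 5 * m + 3 + 2 = 5 * (m + 1) + 0 by omega,
      x_eq _ 1 (by omega), x_eq _ 0 (by omega)] at h2
    rw [x_eq _ 3 (by omega)] at h0
    revert h1 h2 h0 hpair
    generalize x (m + 1) = c
    generalize x m = b
    revert b c
    decide
  · exfalso
    rw [show 5 * m + 4 - 1 = 5 * m + 3 by omega, show 5 * m + 4 + 1 = 5 * (m + 1) + 0 by omega,
      x_eq _ 3 (by omega), x_eq _ 0 (by omega)] at h1
    rw [show 5 * m + 4 - 2 = 5 * m + 2 by omega, show 5 * m + 4 + 2 = 5 * (m + 1) + 1 by omega,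
      x_eq _ 2 (by omega), x_eq _ 1 (by omega)] at h2
    rw [x_eq _ 4 (by omega)] at h0
    revert h1 h2 h0 hpair
    generalize x (m + 1) = c
    generalize x m = b
    revert b c
    decide

/-- Nested positions. -/
def zz : ℕ → ℕ
  | 0 => 0
  | n + 1 => 5 * zz n + 1

lemma zz_ge (n : ℕ) : n ≤ zz n := by
  induction n with
  | zero => exact Nat.zero_le _
  | succ n ih => show n + 1 ≤ 5 * zz n + 1; omega

lemma x_zz (n : ℕ) : x (zz n) = 0 := by
  induction n with
  | zero => exact x_zero
  | succ n ih =>
    show x (5 * zz n + 1) = 0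
    rw [x_eq _ 1 (by omega), ih]; rfl

lemma cover_x (r : ℕ) : ∀ p n, 2 ≤ r → r ≤ p → (∀ i ≤ r, x (p - i) = E (x (p + i))) →
    p ≤ zz n + r → zz n ≤ p + r → False := by
  induction r using Nat.strong_induction_on with
  | _ r ih =>
    intro p n hr hp H c1 c2
    have hx0 : x p = 2 := by
      have := H 0 (by omega)
      rw [Nat.sub_zero, Nat.add_zero] at this
      revert this
      generalize x p = c
      revert c; decide
    obtain ⟨q, rfl, hq⟩ := window p (by omega) (H 1 (by omega)) (H 2 (by omega)) hx0
    have hH : ∀ i ≤ (r + 2) / 5, x (q - i) = E (x (q + i)) := by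
      intro i hi
      rcases Nat.eq_zero_or_pos i with h0 | h0
      · subst h0
        rw [Nat.sub_zero, Nat.add_zero, hq]; rfl
      · have := H (5 * i - 2) (by omega)
        rw [show 5 * q + 2 - (5 * i - 2) = 5 * (q - i) + 4 by omega,
          show 5 * q + 2 + (5 * i - 2) = 5 * (q + i) by omega, x_last, x_first] at this
        exact this
    have hcov : ∃ n', q ≤ zz n' + (r + 2) / 5 ∧ zz n' ≤ q + (r + 2) / 5 := by
      rcases n with _ | m
      · refine ⟨0, ?_, ?_⟩
        · have : zz 0 = 0 := rfl
          omega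
        · have : zz 0 = 0 := rfl
          omega
      · refine ⟨m, ?_, ?_⟩
        · have : zz (m + 1) = 5 * zz m + 1 := rfl
          omega
        · have : zz (m + 1) = 5 * zz m + 1 := rfl
          omega
    obtain ⟨n', d1, d2⟩ := hcov
    rcases Nat.lt_or_ge 1 ((r + 2) / 5) with h2 | h2
    · exact ih ((r + 2) / 5) (by omega) q n' h2 (by omega) hH d1 d2
    · have hz := x_zz n'
      rcases Nat.lt_trichotomy (zz n') q with h3 | h3 | h3
      · -- `q = zz n' + 1`
        have h4 : q = zz n' + 1 := by omega
        have h5 := hH 1 (by omega)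
        rw [h4, Nat.add_sub_cancel, hz] at h5
        rcases n' with _ | m
        · have : zz 0 = 0 := rfl
          rw [h4, this, show 0 + 1 = 5 * 0 + 1 by rfl, x_eq 0 1 (by omega), x_zero] at hq
          exact absurd hq (by decide)
        · have h6 : zz (m + 1) = 5 * zz m + 1 := rfl
          rw [h6, show 5 * zz m + 1 + 1 + 1 = 5 * zz m + 3 by omega, x_eq _ 3 (by omega),
            x_zz m] at h5
          exact absurd h5 (by decide)
      · rw [h3] at hz
        rw [hz] at hq
        exact absurd hq (by decide)
      · have h4 : zz n' = q + 1 := by omega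
        rcases n' with _ | m
        · have : zz 0 = 0 := rfl
          omega
        · have h6 : zz (m + 1) = 5 * zz m + 1 := rfl
          have h7 : q = 5 * zz m := by omega
          rw [h7, x_first, x_zz m] at hq
          exact absurd hq (by decide)

lemma no_run (n : ℕ) (h : ∀ i < 4, x (n + i + 1) = x (n + i)) : False := by
  have hall : ∀ i ≤ 4, x (n + i) = x n := by
    intro i hi
    induction i with
    | zero => rfl
    | succ i ih =>
      rw [← add_assoc, h i (by omega)]
      exact ih (by omega)
  obtain ⟨i, hi, m, hm⟩ : ∃ i ≤ 4, ∃ m, n + i = 5 * m + 2 := by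
    refine ⟨(5 - (n + 3) % 5) % 5, by omega, (n + (5 - (n + 3) % 5) % 5) / 5, by omega⟩
  have h2 : x n = 2 := by
    rw [← hall i hi, hm, x_eq m 2 (by omega)]
    generalize x m = c
    revert c; decide
  have h3 := x_pair n
  rw [h 0 (by omega), add_zero, h2] at h3
  exact absurd h3 (by decide)

/-- The key property of `u`. -/
lemma cover_u (S N n : ℕ) (hN : 24 ≤ N) (h1 : S ≤ 2 * zz n) (h2 : 2 * zz n < S + N)
    (hpal : (seg u S N).reverse = seg u S N) : False := by
  have H : ∀ a b, a + b + 1 = 2 * S + N → S ≤ a → S ≤ b → u a = u b := by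
    intro a b hab ha hb
    have h3 : (seg u S N)[a - S]? = (seg u S N).reverse[a - S]? := by rw [hpal]
    rw [List.getElem?_reverse (by simp; omega), seg_length] at h3
    rw [List.getElem?_eq_getElem (by simp; omega), List.getElem?_eq_getElem (by simp; omega),
      seg_getElem, seg_getElem] at h3
    have h4 := Option.some.inj h3
    rw [show S + (a - S) = a by omega, show S + (N - 1 - (a - S)) = b by omega] at h4
    exact h4
  obtain ⟨p, r, hr, hp⟩ : ∃ p r, r < 4 ∧ 2 * S + N = 4 * p + r + 1 :=
    ⟨(2 * S + N - 1) / 4, (2 * S + N - 1) % 4, Nat.mod_lt _ (by omega), by omega⟩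
  interval_cases r
  · -- centre at the letter `2 p`
    apply no_run p
    intro i hi
    have a1 := H (2 * (p - (i + 1))) (2 * (p + (i + 1))) (by omega) (by omega) (by omega)
    have a2 := H (2 * (p - (i + 1)) + 1) (2 * (p + i) + 1) (by omega) (by omega) (by omega)
    rw [u_even, u_even] at a1
    rw [u_odd, u_odd] at a2
    have a3 := congrArg E a2
    rw [E_E, E_E] at a3
    rw [add_assoc, ← a1, a3]
  · -- the good case
    refine cover_x ((2 * p + 1 - S) / 2) p n (by omega) (by omega) ?_ (by omega) (by omega)
    intro i hi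
    have a1 := H (2 * (p - i) + 1) (2 * (p + i)) (by omega) (by omega) (by omega)
    rw [u_odd, u_even] at a1
    rw [← a1, E_E]
  · apply no_run p
    intro i hi
    have a1 := H (2 * (p - i)) (2 * (p + i + 1)) (by omega) (by omega) (by omega)
    have a2 := H (2 * (p - i) + 1) (2 * (p + i) + 1) (by omega) (by omega) (by omega)
    rw [u_even, u_even] at a1
    rw [u_odd, u_odd] at a2
    have a3 := congrArg E a2
    rw [E_E, E_E] at a3
    rw [← a1, a3]
  · have a1 := H (2 * p) (2 * (p + 1) + 1) (by omega) (by omega) (by omega)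
    rw [u_even, u_odd] at a1
    have a2 := x_pair p
    rw [a1] at a2
    revert a2
    generalize x (p + 1) = c
    revert c; decide

lemma Z_E (c : Fin 3) (r : ℕ) (hr : r < 5) : Z (E c) r = E (Z c (4 - r)) := by
  interval_cases r <;> revert c <;> decide

lemma x_sym (k : ℕ) : ∀ m m', x m = E (x m') → ∀ j < 5 ^ k,
    x (5 ^ k * m + j) = E (x (5 ^ k * m' + (5 ^ k - 1 - j))) := by
  induction k with
  | zero =>
    intro m m' h j hj
    have : j = 0 := by simpa using hj
    subst this
    simpa using h
  | succ k ih =>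
    intro m m' h j hj
    have hp : 5 ^ (k + 1) = 5 * 5 ^ k := by rw [pow_succ, mul_comm]
    have hj' : j / 5 < 5 ^ k := by omega
    have e1 : 5 ^ (k + 1) * m + j = 5 * (5 ^ k * m + j / 5) + j % 5 := by
      rw [hp, mul_add, mul_assoc]; omega
    have e2 : 5 ^ (k + 1) * m' + (5 ^ (k + 1) - 1 - j) =
        5 * (5 ^ k * m' + (5 ^ k - 1 - j / 5)) + (4 - j % 5) := by
      rw [hp, mul_add, mul_assoc]; omega
    rw [e1, e2, x_eq _ _ (Nat.mod_lt _ (by omega)), x_eq _ (4 - j % 5) (by omega),
      ih m m' h (j / 5) hj', Z_E _ _ (Nat.mod_lt _ (by omega))]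

lemma u_pal (k : ℕ) : (seg u (2 * (5 ^ k * 2)) (2 * 5 ^ k)).reverse =
    seg u (2 * (5 ^ k * 2)) (2 * 5 ^ k) := by
  have h2 : x 2 = E (x 2) := by
    have h0 := x_eq 0 2 (by omega)
    rw [x_zero] at h0
    have : x 2 = 2 := h0
    rw [this]; rfl
  apply List.ext_getElem
  · simp
  · intro j h1 h3
    rw [List.length_reverse, seg_length] at h1
    rw [List.getElem_reverse, seg_getElem, seg_getElem, seg_length]
    have hS := x_sym k 2 2 h2 (j / 2) (by omega)
    rcases Nat.even_or_odd' j with ⟨i, rfl | rfl⟩
    · rw [show 2 * i / 2 = i by omega] at hS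
      rw [show 2 * (5 ^ k * 2) + (2 * 5 ^ k - 1 - 2 * i) =
        2 * (5 ^ k * 2 + (5 ^ k - 1 - i)) + 1 by omega,
        show 2 * (5 ^ k * 2) + 2 * i = 2 * (5 ^ k * 2 + i) by omega, u_odd, u_even, hS]
    · rw [show (2 * i + 1) / 2 = i by omega] at hS
      rw [show 2 * (5 ^ k * 2) + (2 * 5 ^ k - 1 - (2 * i + 1)) =
        2 * (5 ^ k * 2 + (5 ^ k - 1 - i)) by omega,
        show 2 * (5 ^ k * 2) + (2 * i + 1) = 2 * (5 ^ k * 2 + i) + 1 by omega, u_odd, u_even,
        hS, E_E]

lemma u_palindromic : IsPalindromic u := by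
  have hinj : Function.Injective
      (fun k : ℕ => seg u (2 * (5 ^ k * 2)) (2 * 5 ^ k)) := by
    intro k k' h
    have h1 := congrArg List.length h
    simp only [seg_length] at h1
    have h2 : 5 ^ k = 5 ^ k' := by omega
    exact Nat.pow_right_injective (le_refl 2 |>.trans (by norm_num)) h2
  refine (Set.infinite_range_of_injective hinj).mono ?_
  rintro w ⟨k, rfl⟩
  exact ⟨⟨_, _, rfl⟩, u_pal k⟩

lemma mapsTo_of_uniform {α β : Type} (f : α → List β) (k : ℕ) (hk : 1 ≤ k) (v : ℕ → α) (y : ℕ → β)
    (h : ∀ n, seg y (k * n) k = f (v n)) : MapsTo f v y := by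
  have key : ∀ n, ap f (seg v 0 n) = seg y 0 (k * n) := by
    intro n
    induction n with
    | zero => simp
    | succ n ih =>
      rw [seg_succ, ap_append, ih, mul_add, mul_one, seg_add, zero_add, zero_add, h, ap_singleton]
  refine ⟨fun n => by rw [key]; simp, fun m => ⟨m, ?_⟩⟩
  rw [key, seg_length]
  exact Nat.le_mul_of_pos_left m hk

lemma zeta_maps : MapsTo zeta x x := by
  apply mapsTo_of_uniform zeta 5 (by omega)
  intro n
  have h0 := x_eq n 0 (by omega)
  have h1 := x_eq n 1 (by omega)
  have h2 := x_eq n 2 (by omega)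
  have h3 := x_eq n 3 (by omega)
  have h4 := x_eq n 4 (by omega)
  simp only [seg, List.range_succ, List.range_zero, List.nil_append, List.map_cons, List.map_nil, List.cons_append]
  rw [h0, h1, h2, h3, h4]
  rfl

lemma mu_maps : MapsTo mu x u := by
  apply mapsTo_of_uniform mu 2 (by omega)
  intro n
  have h0 := u_even n
  have h1 := u_odd n
  simp only [seg, List.range_succ, List.range_zero, List.nil_append, List.map_cons, List.map_nil, List.cons_append, add_zero]
  rw [h0, h1]
  rfl

lemma zeta_primitive : IsPrimitive zeta := ⟨2, by decide⟩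

lemma u_primitiveMorphic : IsPrimitiveMorphic u :=
  ⟨Fin 3, inferInstance, zeta, x, mu, zeta_primitive, zeta_maps, mu_maps⟩

end word

/-! ### The theorem -/

section main

variable {α B : Type}

lemma mapsTo_comp {A1 A2 A3 : Type} {f : A1 → List A2} {v : ℕ → A1} {w : ℕ → A2}
    (hf : MapsTo f v w) (g : A2 → List A3) (n : ℕ) :
    pos g w (pos f v n) = pos (fun a => ap g (f a)) v n := by
  unfold pos
  rw [← hf.1 n]
  congr 1
  simp [ap, List.flatMap_assoc]

lemma ap_comp {A1 A2 A3 : Type} (f : A1 → List A2) (g : A2 → List A3) (w : List A1) :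
    ap g (ap f w) = ap (fun a => ap g (f a)) w := by
  simp [ap, List.flatMap_assoc]

/-- iterates of a morphism -/
def it (φ : B → List B) : ℕ → B → List B
  | 0 => fun b => [b]
  | k + 1 => fun b => ap φ (it φ k b)

lemma it_eq (φ : B → List B) (k : ℕ) (b : B) : it φ k b = (ap φ)^[k] [b] := by
  induction k with
  | zero => rfl
  | succ k ih =>
    rw [Function.iterate_succ_apply', ← ih]; rfl

lemma ap_it_zero (φ : B → List B) (w : List B) : ap (it φ 0) w = w := by
  induction w with
  | nil => rfl
  | cons a w ih =>
    have : ap (it φ 0) (a :: w) = a :: ap (it φ 0) w := by simp [ap, it]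
    rw [this, ih]

lemma it_maps {φ : B → List B} {v : ℕ → B} (h : MapsTo φ v v) (k : ℕ) : MapsTo (it φ k) v v := by
  induction k with
  | zero =>
    refine ⟨fun n => ?_, fun m => ⟨m, ?_⟩⟩
    · rw [ap_it_zero, seg_length]
    · rw [ap_it_zero, seg_length]
  | succ k ih =>
    have e : ∀ w : List B, ap (it φ (k + 1)) w = ap φ (ap (it φ k) w) := fun w => by
      rw [ap_comp]; rfl
    refine ⟨fun n => ?_, fun m => ?_⟩
    · rw [e, ih.1 n]
      exact h.1 _
    · obtain ⟨n1, h1⟩ := h.2 m
      obtain ⟨n2, h2⟩ := ih.2 n1
      refine ⟨n2, ?_⟩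
      rw [e, ih.1 n2]
      exact h1.trans (pos_mono φ v h2)

lemma it_good [Finite B] {φ : B → List B} (hφ : RT φ ∨ LT φ) {v : ℕ → B} (h : MapsTo φ v v)
    (hne : ∀ b, φ b ≠ []) (k : ℕ) : Good v (pos (it φ k) v) ∧ ∀ j, j ≤ pos (it φ k) v j := by
  induction k with
  | zero =>
    have e : pos (it φ 0) v = id := by
      funext n
      unfold pos
      rw [ap_it_zero, seg_length]; rfl
    rw [e]
    exact ⟨good_id v, fun j => le_refl _⟩
  | succ k ih =>
    have e : pos (it φ (k + 1)) v = fun j => pos φ v (pos (it φ k) v j) := by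
      funext n
      rw [mapsTo_comp (it_maps h k) φ]; rfl
    have hge : ∀ n, n ≤ pos φ v n := by
      intro n
      induction n with
      | zero => exact Nat.zero_le _
      | succ n ih2 =>
        rw [pos_succ]
        have := List.length_pos_iff.2 (hne (v n))
        omega
    rw [e]
    refine ⟨good_step hφ h (fun j => by have := ih.2 j; omega) ih.1, fun j => ?_⟩
    exact (ih.2 j).trans (hge _)

theorem core [Finite B] {φ : B → List B} {ψ : B → List (Fin 3)} (hφ : RT φ ∨ LT φ)
    (hψ : RT ψ ∨ LT ψ) {v : ℕ → B} {y : ℕ → Fin 3} (hv : MapsTo φ v v) (hy : MapsTo ψ v y)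
    (hne : ∀ b, φ b ≠ []) (hgrow : ∃ k, ∀ b, 24 ≤ (ap ψ (it φ k b)).length)
    (hlang : language y = language u) : False := by
  obtain ⟨k, hk⟩ := hgrow
  obtain ⟨g1, g2⟩ := it_good hφ hv hne k
  have g3 := good_step hψ hy (fun j => by have := g2 j; omega) g1
  have e : (fun j => pos ψ v (pos (it φ k) v j)) = pos (fun b => ap ψ (it φ k b)) v := by
    funext n
    exact mapsTo_comp (it_maps hv k) ψ n
  rw [e] at g3
  obtain ⟨D, hD⟩ := g3
  obtain ⟨C, hC⟩ : ∃ C, ∀ b, (ap ψ (it φ k b)).length ≤ C := by
    obtain ⟨C, hC⟩ := (Set.finite_range (fun b => (ap ψ (it φ k b)).length)).bddAbove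
    exact ⟨C, fun a => hC ⟨a, rfl⟩⟩
  generalize hQ : pos (fun b => ap ψ (it φ k b)) v = Q at hD
  have hQ0 : Q 0 = 0 := by rw [← hQ, pos_zero]
  have hQs : ∀ j, Q (j + 1) = Q j + (ap ψ (it φ k (v j))).length := by
    intro j; rw [← hQ, pos_succ]
  have hQm : Monotone Q := by rw [← hQ]; exact pos_mono _ _
  have hQge : ∀ j, j ≤ Q j := by
    intro j
    induction j with
    | zero => exact Nat.zero_le _
    | succ j ih => rw [hQs]; have := hk (v j); omega
  -- a large nested position
  set n := Q D + D + C with hn
  have hz := zz_ge n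
  set W := 2 * zz n with hW
  have hF : seg u 0 (W + D + 1) ∈ language y := by
    rw [hlang]; exact ⟨0, _, rfl⟩
  obtain ⟨i, m, him⟩ := hF
  have hm : m = W + D + 1 := by
    have := congrArg List.length him
    rw [seg_length, seg_length] at this
    exact this.symm
  subst hm
  have huy : ∀ j < W + D + 1, u j = y (i + j) := by
    intro j hj
    have h1 : (seg u 0 (W + D + 1))[j]? = (seg y i (W + D + 1))[j]? := by rw [him]
    rw [List.getElem?_eq_getElem (by simpa using hj), List.getElem?_eq_getElem (by simpa using hj),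
      seg_getElem, seg_getElem, zero_add] at h1
    exact Option.some.inj h1
  obtain ⟨j, hj1, hj2⟩ : ∃ j, Q j ≤ i + W ∧ i + W < Q (j + 1) := by
    classical
    have hex : ∃ j, i + W < Q j := ⟨i + W + 1, by have := hQge (i + W + 1); omega⟩
    refine ⟨Nat.find hex - 1, ?_, ?_⟩
    · have hpos : Nat.find hex ≠ 0 := by
        intro h0
        have := Nat.find_spec hex
        rw [h0, hQ0] at this
        omega
      have := Nat.find_min hex (m := Nat.find hex - 1) (by omega)
      omega
    · have hpos : Nat.find hex ≠ 0 := by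
        intro h0
        have := Nat.find_spec hex
        rw [h0, hQ0] at this
        omega
      have := Nat.find_spec hex
      rw [Nat.sub_add_cancel (by omega)]
      exact this
  have hjD : D ≤ j := by
    by_contra hcon
    have := hQm (show j + 1 ≤ D by omega)
    omega
  obtain ⟨S, n', s1, s2, s3, s4, s5⟩ := hD j hjD
  have hstep := hQs j
  have hCj := hC (v j)
  have hkj := hk (v j)
  have hSi : i ≤ S := by omega
  have hseg : seg y S n' = seg u (S - i) n' := by
    apply List.ext_getElem
    · simp
    · intro l h1 h2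
      rw [seg_length] at h1
      rw [seg_getElem, seg_getElem, huy (S - i + l) (by omega)]
      congr 1
      omega
  rw [hseg] at s5
  exact cover_u (S - i) n' n (by omega) (by omega) (by omega) s5

/-- For a nonerasing morphism some word is long, for a primitive one all are. -/
lemma grow_of_two {φ : B → List B} (k0 : ℕ) (h2 : ∀ b, 2 ≤ (it φ k0 b).length) (n : ℕ) :
    ∀ b, 2 ^ n ≤ (it φ (k0 * n) b).length := by
  have hcomp : ∀ k l b, it φ (k + l) b = ap (it φ k) (it φ l b) := by
    intro k l b
    induction k with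
    | zero => rw [zero_add, ap_it_zero]
    | succ k ih =>
      rw [show k + 1 + l = (k + l) + 1 by omega]
      show ap φ (it φ (k + l) b) = _
      rw [ih, ap_comp]; rfl
  have hlow : ∀ w : List B, 2 * w.length ≤ (ap (it φ k0) w).length := by
    intro w
    induction w with
    | nil => simp
    | cons a w ih =>
      have : ap (it φ k0) (a :: w) = it φ k0 a ++ ap (it φ k0) w := by simp [ap]
      rw [this, List.length_append, List.length_cons]
      have := h2 a
      omega
  induction n with
  | zero => intro b; simp [it]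
  | succ n ih =>
    intro b
    rw [show k0 * (n + 1) = k0 + k0 * n by ring, hcomp, pow_succ]
    have := hlow (it φ (k0 * n) b)
    have := ih b
    omega

lemma it_add (φ : B → List B) (k l : ℕ) (b : B) : it φ (k + l) b = ap (it φ k) (it φ l b) := by
  induction k with
  | zero => rw [zero_add, ap_it_zero]
  | succ k ih =>
    rw [show k + 1 + l = (k + l) + 1 by omega]
    show ap φ (it φ (k + l) b) = _
    rw [ih, ap_comp]; rfl

lemma le_ap_length {A1 A2 : Type} {f : A1 → List A2} (h : ∀ b, f b ≠ []) (w : List A1) :
    w.length ≤ (ap f w).length := by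
  induction w with
  | nil => simp
  | cons a w ih =>
    have : ap f (a :: w) = f a ++ ap f w := by simp [ap]
    rw [this, List.length_append, List.length_cons]
    have := List.length_pos_iff.2 (h a)
    omega

lemma exists_image_ne {f : B → List α} {v : ℕ → B} {y : ℕ → α} (h : MapsTo f v y) : ∃ b, f b ≠ [] := by
  by_contra hcon
  push Not at hcon
  obtain ⟨n, hn⟩ := h.2 1
  have : ∀ w : List B, ap f w = [] := by
    intro w
    simp [ap, hcon]
  rw [this] at hn
  simp at hn

end main

/-- **Q2 fails for primitive morphisms.** There is a palindromic primitive morphic word `u` over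
three letters such that no morphisms `φ` (primitive) and `ψ`, each conjugate to a morphism in
class P, and no infinite word `v` with `φ(v) = v` satisfy `L(ψ(v)) = L(u)`. -/
theorem result : ∃ u : ℕ → Fin 3, IsPrimitiveMorphic u ∧ IsPalindromic u ∧
    ∀ (B : Type) [Finite B] (φ : B → List B) (ψ : B → List (Fin 3)) (v : ℕ → B) (y : ℕ → Fin 3),
      IsPrimitive φ → ClassP' φ → ClassP' ψ → MapsTo φ v v → MapsTo ψ v y →
        language y ≠ language u := by
  refine ⟨u, u_primitiveMorphic, u_palindromic, ?_⟩
  intro B _ φ ψ v y hprim hP hP' hv hy hlang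
  obtain ⟨c, hc⟩ := exists_image_ne hy
  rcases subsingleton_or_nontrivial B with hsub | hnon
  · -- one letter: replace `φ` by `b ↦ bb`
    have hψ : ∀ b, ψ b ≠ [] := fun b => by rw [Subsingleton.elim b c]; exact hc
    let φ2 : B → List B := fun b => [b, b]
    have hv2 : MapsTo φ2 v v := by
      apply mapsTo_of_uniform φ2 2 (by omega)
      intro n
      apply List.ext_getElem
      · simp [φ2]
      · intro i h1 h2
        exact Subsingleton.elim _ _
    refine core (φ := φ2) (Or.inl ⟨[], rfl, fun a => rfl⟩) (RT_or_LT hP') hv2 hy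
      (fun b => by simp [φ2]) ⟨1 * 5, fun b => ?_⟩ hlang
    have h1 := grow_of_two (φ := φ2) 1 (fun b => by simp [it, φ2]) 5 b
    have h2 := le_ap_length hψ (it φ2 (1 * 5) b)
    have h3 : (2:ℕ) ^ 5 = 32 := by norm_num
    omega
  · obtain ⟨k0, hk0⟩ := hprim
    have hk0' : ∀ a b, b ∈ it φ k0 a := fun a b => by rw [it_eq]; exact hk0 a b
    have h2 : ∀ b, 2 ≤ (it φ k0 b).length := by
      intro b
      obtain ⟨d, hd⟩ := exists_ne b
      have m1 := hk0' b b
      have m2 := hk0' b d
      rcases hl : it φ k0 b with _ | ⟨e1, _ | ⟨e2, l⟩⟩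
      · rw [hl] at m1; simp at m1
      · rw [hl] at m1 m2
        simp only [List.mem_singleton] at m1 m2
        exact absurd (m2.trans m1.symm) hd
      · simp
    have hne : ∀ b, φ b ≠ [] := by
      intro b hb
      rcases k0 with _ | k1
      · have := h2 b
        simp [it] at this
      · have e : it φ (k1 + 1) b = ap (it φ k1) (it φ 1 b) := it_add φ k1 1 b
        have e1 : it φ 1 b = [] := by
          show ap φ [b] = []
          rw [ap_singleton, hb]
        rw [e1, ap_nil] at e
        have := h2 b
        rw [e] at this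
        simp at this
    refine core (RT_or_LT hP) (RT_or_LT hP') hv hy hne ⟨k0 + k0 * 5, fun b => ?_⟩ hlang
    have h3 := grow_of_two k0 h2 5 b
    have h4 : ∀ b, ap ψ (it φ k0 b) ≠ [] := by
      intro b hb
      obtain ⟨s, t, hst⟩ := List.append_of_mem (hk0' b c)
      rw [hst] at hb
      have : ap ψ (s ++ c :: t) = ap ψ s ++ (ψ c ++ ap ψ t) := by simp [ap]
      rw [this] at hb
      simp only [List.append_eq_nil_iff] at hb
      exact hc hb.2.1
    have h5 := le_ap_length h4 (it φ (k0 * 5) b)
    rw [it_add, ap_comp]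
    have h6 : (2:ℕ) ^ 5 = 32 := by norm_num
    omega

end Pool.Agent.Results.MP_6957f6_co.WeakClassPFails
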